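import Pool.Agent.helper84.ZD.SpecA

/-! # Module zd:PR2 (helper60): the Poisson formula (R2) -/

set_option autoImplicit false

open Complex MeasureTheory

namespace Pool.Agent.ZD

open Pool.Agent.helper84.DM Pool.Agent.helper78.ED Pool.Agent.DH

theorem PR2_ee_zero (y : ℝ) : ee (-(0 * y)) = 1 := by
  unfold ee
  simp

theorem PR2_norm_exp (a : ℝ) : ‖Complex.exp (-(((a : ℝ) : ℂ) * I))‖ = 1 := by
  rw [← neg_mul, ← Complex.ofReal_neg]
  exact Complex.norm_exp_ofReal_mul_I _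

/-- bound of the tail -/
theorem PR2_tail (f : ℤ → ℂ) (S : Finset ℤ) (K : ℝ) (hK : 0 ≤ K) (hs : Summable f)
    (hb : ∀ m : ℤ, m ∉ S → ‖f m‖ ≤ K * (1 / (m : ℝ) ^ 2)) :
    ‖∑' m : ℤ, f m - ∑ m ∈ S, f m‖ ≤ K * ∑' m : ℤ, 1 / (m : ℝ) ^ 2 := by
  classical
  have h1 : HasSum (fun m : ℤ => if m ∈ S then f m else 0) (∑ m ∈ S, f m) := by
    have h := hasSum_sum_of_ne_finset_zero (f := fun m : ℤ => if m ∈ S then f m else 0) (s := S)
      (L := SummationFilter.unconditional ℤ) (fun b hb => by simp [hb])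
    have h' : ∑ b ∈ S, (if b ∈ S then f b else 0) = ∑ m ∈ S, f m :=
      Finset.sum_congr rfl (fun b hb => by simp [hb])
    rw [h'] at h
    exact h
  have h2 := hs.hasSum.sub h1
  have h3 : HasSum (fun m : ℤ => K * (1 / (m : ℝ) ^ 2)) (K * ∑' m : ℤ, 1 / (m : ℝ) ^ 2) :=
    (Real.summable_one_div_int_pow.2 (by norm_num : 1 < 2)).hasSum.mul_left K
  refine h2.norm_le_of_bounded h3 ?_
  intro m
  by_cases hm : m ∈ S
  · have : ‖f m - (if m ∈ S then f m else 0)‖ = 0 := by simp [hm]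
    rw [this]
    positivity
  · have : ‖f m - (if m ∈ S then f m else 0)‖ = ‖f m‖ := by simp [hm]
    rw [this]
    exact hb m hm

/-- real power computation for the zero frequency -/
theorem PR2_zero (A δ T X : ℝ) (j : ℕ) (hδ : 0 < δ) (hj : A + 3 + 2 * δ ≤ δ * j) (hT : 1 ≤ T)
    (hX : X ≤ T ^ (1 + δ)) (hX0 : 0 < X) (u : ℝ) (hu : T ^ δ ≤ |u|) (H C : ℝ) (hC : 0 ≤ C)
    (hH : H * |u| ^ j ≤ C) : X * H ≤ C * T ^ (-A) := by
  have hT0 : 0 < T := by linarith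
  have hTd : 0 < T ^ δ := Real.rpow_pos_of_pos hT0 _
  have hu0 : 0 < |u| := lt_of_lt_of_le hTd hu
  have h1 : T ^ (δ * j) ≤ |u| ^ j := by
    have : (T ^ δ) ^ j ≤ |u| ^ j := pow_le_pow_left₀ hTd.le hu j
    rwa [← Real.rpow_natCast, ← Real.rpow_mul hT0.le] at this
  have h2 : H ≤ C / T ^ (δ * j) := by
    rcases le_or_gt H 0 with h | h
    · exact h.trans (by positivity)
    · rw [le_div_iff₀ (Real.rpow_pos_of_pos hT0 _)]
      exact (mul_le_mul_of_nonneg_left h1 h.le).trans hH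
  have h3 : X * H ≤ T ^ (1 + δ) * (C / T ^ (δ * j)) := by
    calc X * H ≤ X * (C / T ^ (δ * j)) := mul_le_mul_of_nonneg_left h2 hX0.le
      _ ≤ T ^ (1 + δ) * (C / T ^ (δ * j)) := mul_le_mul_of_nonneg_right hX (by positivity)
  have h4 : T ^ (1 + δ) * (C / T ^ (δ * j)) = C * T ^ (1 + δ - δ * j) := by
    rw [Real.rpow_sub hT0]
    ring
  rw [h4] at h3
  refine h3.trans (mul_le_mul_of_nonneg_left ?_ hC)
  exact Real.rpow_le_rpow_of_exponent_le hT (by nlinarith)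

/-- real power computation for the tail -/
theorem PR2_pow (A δ T X N : ℝ) (i : ℕ)
    (hj : A + 3 + 2 * δ ≤ δ * ((i + 2 : ℕ) : ℝ)) (hT : 1 ≤ T)
    (hX1 : 1 ≤ X) (hN : T ^ (1 + δ) / X ≤ N) :
    X * ((2 * T) ^ (i + 2) / (X ^ (i + 2) * N ^ i)) ≤ 2 ^ (i + 2) * T ^ (-A) := by
  have hT0 : 0 < T := by linarith
  have hX0 : 0 < X := by linarith
  have hP : 0 < T ^ (1 + δ) / X := div_pos (Real.rpow_pos_of_pos hT0 _) hX0
  have h1 : (T ^ (1 + δ) / X) ^ i ≤ N ^ i := pow_le_pow_left₀ hP.le hN i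
  have h2 : X * ((2 * T) ^ (i + 2) / (X ^ (i + 2) * N ^ i)) ≤
      X * ((2 * T) ^ (i + 2) / (X ^ (i + 2) * (T ^ (1 + δ) / X) ^ i)) := by
    have hp : 0 < X ^ (i + 2) * (T ^ (1 + δ) / X) ^ i := by positivity
    refine mul_le_mul_of_nonneg_left ?_ hX0.le
    exact div_le_div_of_nonneg_left (by positivity) hp
      (mul_le_mul_of_nonneg_left h1 (by positivity))
  refine h2.trans ?_
  have hQ : 0 < T ^ (1 + δ) := Real.rpow_pos_of_pos hT0 _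
  have h3 : X * ((2 * T) ^ (i + 2) / (X ^ (i + 2) * (T ^ (1 + δ) / X) ^ i)) =
      2 ^ (i + 2) * (T ^ (i + 2) / (T ^ (1 + δ)) ^ i) / X := by
    rw [div_pow, mul_pow]
    field_simp
    ring
  rw [h3]
  have h4 : T ^ (i + 2) / (T ^ (1 + δ)) ^ i = T ^ ((i + 2 : ℕ) - (1 + δ) * i : ℝ) := by
    rw [Real.rpow_sub hT0, Real.rpow_natCast, Real.rpow_mul hT0.le, Real.rpow_natCast]
  rw [h4]
  have h5 : T ^ ((i + 2 : ℕ) - (1 + δ) * i : ℝ) ≤ T ^ (-A) := by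
    refine Real.rpow_le_rpow_of_exponent_le hT ?_
    push_cast at hj ⊢
    nlinarith
  have h6 : 2 ^ (i + 2) * T ^ ((i + 2 : ℕ) - (1 + δ) * i : ℝ) / X ≤
      2 ^ (i + 2) * T ^ ((i + 2 : ℕ) - (1 + δ) * i : ℝ) :=
    div_le_self (by positivity) hX1
  exact h6.trans (mul_le_mul_of_nonneg_left h5 (by positivity))

/-- pointwise bound of the high frequencies -/
theorem PR2_high (T X N u m H C : ℝ) (i : ℕ) (hT : 1 ≤ T) (hX : 1 ≤ X) (hN : 1 ≤ N)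
    (hu : |u| ≤ T) (hm : N ≤ |m|) (hC : 0 ≤ C)
    (hH : H * |m * X| ^ (i + 2) ≤ C * (1 + |u|) ^ (i + 2)) :
    H ≤ (C * ((2 * T) ^ (i + 2) / (X ^ (i + 2) * N ^ i))) * (1 / m ^ 2) := by
  have hm0 : 0 < |m| := by linarith
  have hX0 : 0 < X := by linarith
  have hN0 : 0 < N := by linarith
  have e1 : |m * X| ^ (i + 2) = |m| ^ (i + 2) * X ^ (i + 2) := by
    rw [abs_mul, abs_of_pos hX0, mul_pow]
  have e2 : (1 + |u|) ^ (i + 2) ≤ (2 * T) ^ (i + 2) :=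
    pow_le_pow_left₀ (by positivity) (by linarith) _
  have e3 : H * (|m| ^ (i + 2) * X ^ (i + 2)) ≤ C * (2 * T) ^ (i + 2) := by
    rw [← e1]
    exact hH.trans (mul_le_mul_of_nonneg_left e2 hC)
  have hp : 0 < |m| ^ (i + 2) * X ^ (i + 2) := by positivity
  have e4 : H ≤ C * (2 * T) ^ (i + 2) / (|m| ^ (i + 2) * X ^ (i + 2)) := by
    rw [le_div_iff₀ hp]
    exact e3
  refine e4.trans ?_
  have e5 : (C * ((2 * T) ^ (i + 2) / (X ^ (i + 2) * N ^ i))) * (1 / m ^ 2) =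
      C * (2 * T) ^ (i + 2) / (X ^ (i + 2) * N ^ i * m ^ 2) := by
    field_simp
  rw [e5]
  have e6 : X ^ (i + 2) * N ^ i * m ^ 2 ≤ |m| ^ (i + 2) * X ^ (i + 2) := by
    have : N ^ i ≤ |m| ^ i := pow_le_pow_left₀ hN0.le hm i
    have e7 : |m| ^ (i + 2) = |m| ^ i * m ^ 2 := by rw [pow_add, sq_abs]
    rw [e7]
    have : N ^ i * (m ^ 2 * X ^ (i + 2)) ≤ |m| ^ i * (m ^ 2 * X ^ (i + 2)) :=
      mul_le_mul_of_nonneg_right this (by positivity)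
    nlinarith
  have hm2 : 0 < m ^ 2 := by rw [← sq_abs]; positivity
  exact div_le_div_of_nonneg_left (by positivity) (by positivity) e6

theorem PR2 (h1 : POI_stmt) (h2 : CHX_stmt) (h3 : IBU_stmt) (h4 : IBZ_stmt) (h5 : PHS_stmt) :
    PR2_stmt := by
  intro A δ hA hδ hδ1
  obtain ⟨i, hi⟩ : ∃ i : ℕ, i = ⌈(A + 3) / δ⌉₊ := ⟨_, rfl⟩
  have hi1 : (A + 3) / δ ≤ (i : ℝ) := by rw [hi]; exact Nat.le_ceil _
  have hj : A + 3 + 2 * δ ≤ δ * ((i + 2 : ℕ) : ℝ) := by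
    have : A + 3 ≤ δ * i := by
      rw [div_le_iff₀ hδ] at hi1
      linarith
    push_cast
    nlinarith
  obtain ⟨C1, hC1, hI⟩ := h3 (fun y => ((Phi y : ℝ) : ℂ)) h5.2.1 (i + 2)
  obtain ⟨C2, hC2, hZ⟩ := h4 (fun y => ((Phi y : ℝ) : ℂ)) h5.2.1 (i + 2)
  obtain ⟨Z, hZdef⟩ : ∃ Z : ℝ, Z = ∑' m : ℤ, 1 / (m : ℝ) ^ 2 := ⟨_, rfl⟩
  have hZ0 : 0 ≤ Z := by
    rw [hZdef]
    exact tsum_nonneg (fun m => by positivity)
  refine ⟨C2 + C1 * 2 ^ (i + 2) * Z + 1, 1, by positivity, ?_⟩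
  intro T hT X hX1 hX2 u hu1 hu2 M hM
  have hT0 : 0 < T := by linarith
  have hXone : 1 ≤ X := by
    have : (1 : ℝ) ≤ T ^ (1 / 2 : ℝ) := Real.one_le_rpow hT (by norm_num)
    linarith
  have hX0 : 0 < X := by linarith
  obtain ⟨hs, hB⟩ := h1 X u hX0
  have hBs := h2.2.2 X M u
  have hTA : 0 < T ^ (-A) := Real.rpow_pos_of_pos hT0 _
  -- the set of the small frequencies
  have hnot : (0 : ℤ) ∉ MM M := by simp [MM]
  have hdiff : BX X u - Complex.exp (-(((u * Real.log X : ℝ) : ℂ) * I)) * Bs X M u =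
      Complex.exp (-(((u * Real.log X : ℝ) : ℂ) * I)) * ((X : ℂ) * (HH u ((0 : ℤ) * X) +
        (∑' m : ℤ, HH u ((m : ℝ) * X) - ∑ m ∈ insert 0 (MM M), HH u ((m : ℝ) * X)))) := by
    rw [hB, hBs, Finset.sum_insert hnot]
    ring
  rw [hdiff, norm_mul, PR2_norm_exp, one_mul, norm_mul, Complex.norm_real, Real.norm_eq_abs,
    abs_of_pos hX0]
  -- zero frequency
  have hzero : X * ‖HH u ((0 : ℤ) * X)‖ ≤ C2 * T ^ (-A) := by
    have hH : HH u ((0 : ℤ) * X) =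
        ∫ y : ℝ, ((Phi y : ℝ) : ℂ) * Complex.exp (-(((u * Real.log y : ℝ) : ℂ) * I)) := by
      unfold HH
      refine integral_congr_ae (Filter.Eventually.of_forall ?_)
      intro y
      simp only [Int.cast_zero, zero_mul]
      rw [show (-(0 : ℝ)) = -(0 * y) by ring, PR2_ee_zero, mul_one]
    rw [hH]
    exact PR2_zero A δ T X (i + 2) hδ hj hT hX2 hX0 u hu1 _ C2 hC2 (hZ u)
  -- high frequencies
  have hN : (1 : ℝ) ≤ (M : ℝ) + 1 := by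
    have : (0 : ℝ) ≤ M := Nat.cast_nonneg M
    linarith
  have htail : ‖∑' m : ℤ, HH u ((m : ℝ) * X) - ∑ m ∈ insert 0 (MM M), HH u ((m : ℝ) * X)‖ ≤
      (C1 * ((2 * T) ^ (i + 2) / (X ^ (i + 2) * ((M : ℝ) + 1) ^ i))) * Z := by
    rw [hZdef]
    refine PR2_tail (fun m : ℤ => HH u ((m : ℝ) * X)) (insert 0 (MM M)) _ (by positivity) hs ?_
    intro m hm
    have hm1 : (M : ℝ) + 1 ≤ |(m : ℝ)| := by
      have hm' : ¬ (m ∈ Finset.Icc (-(M : ℤ)) M) := by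
        intro hmem
        apply hm
        rw [Finset.mem_insert]
        by_cases h0 : m = 0
        · exact Or.inl h0
        · exact Or.inr (Finset.mem_erase.2 ⟨h0, hmem⟩)
      have hm2 : (M : ℤ) + 1 ≤ |m| := by
        by_contra hcon
        push Not at hcon
        apply hm'
        rw [Finset.mem_Icc]
        have := abs_le.1 (show |m| ≤ (M : ℤ) by omega)
        exact this
      have hm3 : (((M : ℤ) + 1 : ℤ) : ℝ) ≤ ((|m| : ℤ) : ℝ) := by exact_mod_cast hm2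
      rw [Int.cast_abs] at hm3
      push_cast at hm3
      exact hm3
    exact PR2_high T X ((M : ℝ) + 1) u m _ C1 i hT hXone hN hu2 hm1 hC1 (hI u ((m : ℝ) * X))
  have hK := PR2_pow A δ T X ((M : ℝ) + 1) i hj hT hXone hM
  calc X * ‖HH u ((0 : ℤ) * X) +
        (∑' m : ℤ, HH u ((m : ℝ) * X) - ∑ m ∈ insert 0 (MM M), HH u ((m : ℝ) * X))‖
      ≤ X * (‖HH u ((0 : ℤ) * X)‖ +
        ‖∑' m : ℤ, HH u ((m : ℝ) * X) - ∑ m ∈ insert 0 (MM M), HH u ((m : ℝ) * X)‖) :=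
        mul_le_mul_of_nonneg_left (norm_add_le _ _) hX0.le
    _ = X * ‖HH u ((0 : ℤ) * X)‖ + X *
        ‖∑' m : ℤ, HH u ((m : ℝ) * X) - ∑ m ∈ insert 0 (MM M), HH u ((m : ℝ) * X)‖ := by ring
    _ ≤ C2 * T ^ (-A) + X *
        ((C1 * ((2 * T) ^ (i + 2) / (X ^ (i + 2) * ((M : ℝ) + 1) ^ i))) * Z) :=
        add_le_add hzero (mul_le_mul_of_nonneg_left htail hX0.le)
    _ = C2 * T ^ (-A) + (C1 * Z) *
        (X * ((2 * T) ^ (i + 2) / (X ^ (i + 2) * ((M : ℝ) + 1) ^ i))) := by ring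
    _ ≤ C2 * T ^ (-A) + (C1 * Z) * (2 ^ (i + 2) * T ^ (-A)) := by
        gcongr
    _ ≤ (C2 + C1 * 2 ^ (i + 2) * Z + 1) * T ^ (-A) := by nlinarith

end Pool.Agent.ZD
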